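import Pool.Agent.Helper903_VG.FinalSeries

set_option autoImplicit false

namespace Pool.Agent.Results.MP_961fdb_co.ChiefFactors

/-- There is a constant `C` such that for every finite group `G` with a series `1 = S 0 ≤ S 1 ≤ ⋯ ≤ S ℓ = G` of
normal subgroups of `G` in which every factor `S (i + 1) / S i` is abelian or of order at most `β`, and every
nonempty edge-coloured digraph on `n` vertices with automorphism group isomorphic to `G`, some simple graph with
fewer than `C * √(1 + log β) * n` vertices has automorphism group isomorphic to `G`. -/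
theorem result :
    ∃ C : ℝ, ∀ (G : Type) [Group G] [Finite G] (β ℓ : ℕ) (S : ℕ → Subgroup G),
      S 0 = ⊥ → S ℓ = ⊤ → (∀ i ≤ ℓ, (S i).Normal) → (∀ i < ℓ, S i ≤ S (i + 1)) →
      (∀ i < ℓ, ⁅S (i + 1), S (i + 1)⁆ ≤ S i ∨ (S i).relIndex (S (i + 1)) ≤ β) →
      ∀ (n k : ℕ) (c : Fin n → Fin n → Option (Fin k)), 0 < n →
      (∃ φ : G →* Equiv.Perm (Fin n), Function.Injective ⇑φ ∧
        ∀ σ : Equiv.Perm (Fin n),
          (∀ x y : Fin n, c (σ x) (σ y) = c x y) ↔ σ ∈ Set.range ⇑φ) →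
      ∃ (m : ℕ) (Γ : SimpleGraph (Fin m)) (ψ : G →* Equiv.Perm (Fin m)),
        Function.Injective ⇑ψ ∧
        (∀ σ : Equiv.Perm (Fin m),
          (∀ x y : Fin m, Γ.Adj (σ x) (σ y) ↔ Γ.Adj x y) ↔ σ ∈ Set.range ⇑ψ) ∧
        (m : ℝ) < C * Real.sqrt (1 + Real.log β) * n := by
  refine ⟨20000, ?_⟩
  intro G _ _ β ℓ S h0 h1 h2 h3 h4 n k c hn h
  refine Pool.Agent.Helper903_VG.main_ser ⟨h0, h1, h2, h3, fun i hi => ?_⟩ n k c hn h
  refine (h4 i hi).imp (fun h5 a ha b hb => ?_) id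
  exact h5 (Subgroup.commutator_mem_commutator ha hb)

end Pool.Agent.Results.MP_961fdb_co.ChiefFactors
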