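import Pool.Agent.Helper903_VG.FinalSub

set_option autoImplicit false

namespace Pool.Agent.Results.MP_961fdb_co.CompositionFactors

/-- There is a constant `C` such that for every finite group `G` with a subnormal series
`1 = S 0 ≤ S 1 ≤ ⋯ ≤ S ℓ = G` (each `S i` normal in `S (i + 1)`) in which every factor is abelian or of order at
most `β`, and every nonempty edge-coloured digraph on `n` vertices with automorphism group isomorphic to `G`, some
simple graph with fewer than `C * √(1 + log β + log (1 + log n)) * n` vertices has automorphism group isomorphic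
to `G`. -/
theorem result :
    ∃ C : ℝ, ∀ (G : Type) [Group G] [Finite G] (β ℓ : ℕ) (S : ℕ → Subgroup G),
      S 0 = ⊥ → S ℓ = ⊤ → (∀ i < ℓ, S i ≤ S (i + 1)) →
      (∀ i < ℓ, ((S i).subgroupOf (S (i + 1))).Normal) →
      (∀ i < ℓ, ⁅S (i + 1), S (i + 1)⁆ ≤ S i ∨ (S i).relIndex (S (i + 1)) ≤ β) →
      ∀ (n k : ℕ) (c : Fin n → Fin n → Option (Fin k)), 0 < n →
      (∃ φ : G →* Equiv.Perm (Fin n), Function.Injective ⇑φ ∧
        ∀ σ : Equiv.Perm (Fin n),
          (∀ x y : Fin n, c (σ x) (σ y) = c x y) ↔ σ ∈ Set.range ⇑φ) →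
      ∃ (m : ℕ) (Γ : SimpleGraph (Fin m)) (ψ : G →* Equiv.Perm (Fin m)),
        Function.Injective ⇑ψ ∧
        (∀ σ : Equiv.Perm (Fin m),
          (∀ x y : Fin m, Γ.Adj (σ x) (σ y) ↔ Γ.Adj x y) ↔ σ ∈ Set.range ⇑ψ) ∧
        (m : ℝ) < C * Real.sqrt (1 + Real.log β + Real.log (1 + Real.log n)) * n := by
  refine ⟨2000, ?_⟩
  intro G _ _ β ℓ S h0 h1 h2 h3 h4 n k c hn h
  refine Pool.Agent.Helper903_VG.main_subn ⟨h0, h1, h2, fun i hi a ha x hx => ?_, fun i hi => ?_⟩ n k c hn h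
  · exact (h3 i hi).conj_mem ⟨x, h2 i hi hx⟩ hx ⟨a, ha⟩
  · refine (h4 i hi).imp (fun h5 a ha b hb => ?_) id
    exact h5 (Subgroup.commutator_mem_commutator ha hb)

end Pool.Agent.Results.MP_961fdb_co.CompositionFactors
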